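import Pool.Agent.W601.SQ.Stm

/-!
# Cantor sets of solutions, lacunary case (project SQ)
-/

set_option autoImplicit false
open scoped Cardinal
open Filter Topology

namespace Pool.Agent.W196.SQ

open Pool.Agent.W601.SQ

noncomputable section

/-- one step: the next centre -/
def st (t : ℕ → ℤ) (r : ℕ → ℝ) (j : ℕ) (x : ℝ) (b : Bool) : ℝ :=
  ((round ((t j : ℝ) * x - r j) : ℝ) + (if b then 1 else 0) + r j) / (t j : ℝ)

/-- the centres -/
def cc (t : ℕ → ℤ) (r : ℕ → ℝ) (m : ℝ) (z : ℕ → Bool) : ℕ → ℝ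
  | 0 => st t r 0 m (z 0)
  | j + 1 => st t r (j + 1) (cc t r m z j) (z (j + 1))

theorem st_dist (t : ℕ → ℤ) (r : ℕ → ℝ) (j : ℕ) (x : ℝ) (b : Bool) (ht : t j ≠ 0) :
    |st t r j x b - x| ≤ 3 / 2 / |(t j : ℝ)| := by
  have ht' : (t j : ℝ) ≠ 0 := by exact_mod_cast ht
  have ht0 : 0 < |(t j : ℝ)| := abs_pos.2 ht'
  have h1 : st t r j x b - x = ((round ((t j : ℝ) * x - r j) : ℝ) - ((t j : ℝ) * x - r j) +
      (if b then 1 else 0)) / (t j : ℝ) := by
    unfold st
    field_simp
    ring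
  rw [h1, abs_div]
  refine div_le_div_of_nonneg_right ?_ ht0.le
  have h2 := abs_sub_round ((t j : ℝ) * x - r j)
  rw [abs_le] at h2
  cases b
  · simp only [Bool.false_eq_true, if_false, add_zero]
    rw [abs_le]; constructor <;> linarith [h2.1, h2.2]
  · simp only [if_true]
    rw [abs_le]; constructor <;> linarith [h2.1, h2.2]

theorem st_int (t : ℕ → ℤ) (r : ℕ → ℝ) (j : ℕ) (x : ℝ) (b : Bool) (ht : t j ≠ 0) :
    ∃ k : ℤ, (t j : ℝ) * st t r j x b - r j = k := by
  have ht' : (t j : ℝ) ≠ 0 := by exact_mod_cast ht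
  refine ⟨round ((t j : ℝ) * x - r j) + (if b then 1 else 0), ?_⟩
  unfold st
  rw [mul_div_cancel₀ _ ht']
  push_cast
  ring

theorem st_ne (t : ℕ → ℤ) (r : ℕ → ℝ) (j : ℕ) (x : ℝ) (b b' : Bool) (hb : b ≠ b')
    (ht : t j ≠ 0) : |st t r j x b - st t r j x b'| = 1 / |(t j : ℝ)| := by
  have h1 : st t r j x b - st t r j x b' =
      ((if b then 1 else 0) - (if b' then 1 else 0)) / (t j : ℝ) := by
    unfold st
    ring
  rw [h1, abs_div]
  congr 1
  cases b <;> cases b' <;> simp at hb ⊢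

theorem cc_congr (t : ℕ → ℤ) (r : ℕ → ℝ) (m : ℝ) (z z' : ℕ → Bool) (j : ℕ)
    (h : ∀ i ≤ j, z i = z' i) : cc t r m z j = cc t r m z' j := by
  induction j with
  | zero => simp only [cc, h 0 le_rfl]
  | succ j ih =>
    simp only [cc]
    rw [ih fun i hi => h i (hi.trans (Nat.le_succ _)), h (j + 1) le_rfl]

theorem nm_le {x : ℝ} (k : ℤ) : nm x ≤ |x - k| := by
  unfold nm
  rw [UnitAddCircle.norm_eq]
  exact round_le x k

theorem can : S_CAN := by
  intro t r ε u v hε hε4 ht0 hgr huv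
  have h16 : 16 ≤ 4 / ε := by
    rw [le_div_iff₀ hε]
    linarith
  have hne : ∀ j, 0 < |(t j : ℝ)| := by
    intro j
    induction j with
    | zero => exact abs_pos.2 (by exact_mod_cast ht0)
    | succ j ih =>
      refine lt_of_lt_of_le ?_ (hgr j)
      have : 0 < 4 / ε := by positivity
      exact mul_pos this ih
  have hne' : ∀ j, t j ≠ 0 := by
    intro j h
    have := hne j
    rw [h] at this
    simp at this
  have hg16 : ∀ j, 16 * |(t j : ℝ)| ≤ |(t (j + 1) : ℝ)| := fun j =>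
    (mul_le_mul_of_nonneg_right h16 (hne j).le).trans (hgr j)
  have hgi : ∀ j i, 3 / 2 / |(t (j + i + 1) : ℝ)| ≤ 3 / 2 / |(t (j + 1) : ℝ)| * (1 / 16) ^ i := by
    intro j i
    induction i with
    | zero => simp
    | succ i ih =>
      have h1 := hg16 (j + i + 1)
      have h2 : 3 / 2 / |(t (j + (i + 1) + 1) : ℝ)| ≤ 3 / 2 / |(t (j + i + 1) : ℝ)| * (1 / 16) := by
        have e : j + (i + 1) + 1 = j + i + 1 + 1 := by ring
        rw [e, div_mul_div_comm, div_le_div_iff₀ (hne _) (by have := hne (j + i + 1); positivity)]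
        linarith
      calc _ ≤ 3 / 2 / |(t (j + i + 1) : ℝ)| * (1 / 16) := h2
        _ ≤ 3 / 2 / |(t (j + 1) : ℝ)| * (1 / 16) ^ i * (1 / 16) :=
          mul_le_mul_of_nonneg_right ih (by norm_num)
        _ = _ := by rw [pow_succ]; ring
  set m : ℝ := (u + v) / 2 with hm
  have hstep : ∀ z j, |cc t r m z (j + 1) - cc t r m z j| ≤ 3 / 2 / |(t (j + 1) : ℝ)| := by
    intro z j
    simp only [cc]
    exact st_dist t r (j + 1) _ _ (hne' _)
  have hd : ∀ z j i, dist (cc t r m z (j + i)) (cc t r m z (j + (i + 1))) ≤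
      3 / 2 / |(t (j + 1) : ℝ)| * (1 / 16) ^ i := by
    intro z j i
    rw [Real.dist_eq, abs_sub_comm]
    exact (hstep z (j + i)).trans (hgi j i)
  have hcau : ∀ z, CauchySeq (cc t r m z) := by
    intro z
    refine cauchySeq_of_le_geometric (1 / 16) (3 / 2 / |(t (0 + 1) : ℝ)|) (by norm_num) fun i => ?_
    have := hd z 0 i
    simpa using this
  have hlim : ∀ z, ∃ y, Tendsto (cc t r m z) atTop (𝓝 y) := fun z =>
    cauchySeq_tendsto_of_complete (hcau z)
  choose Y hY using hlim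
  have hYc : ∀ z j, |cc t r m z j - Y z| ≤ 2 / 5 * ε / |(t j : ℝ)| := by
    intro z j
    have h1 : Tendsto (fun i => cc t r m z (j + i)) atTop (𝓝 (Y z)) := by
      have := (hY z).comp (tendsto_add_atTop_nat j)
      refine this.congr fun i => ?_
      simp only [Function.comp_apply]
      rw [add_comm]
    have h2 := dist_le_of_le_geometric_of_tendsto₀ (1 / 16) (3 / 2 / |(t (j + 1) : ℝ)|)
      (by norm_num) (fun i => hd z j i) h1
    rw [Real.dist_eq, add_zero] at h2
    refine h2.trans ?_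
    have h3 := hgr j
    have h4 : 4 * |(t j : ℝ)| ≤ ε * |(t (j + 1) : ℝ)| := by
      have h5 : 4 / ε * |(t j : ℝ)| * ε = 4 * |(t j : ℝ)| := by
        field_simp
      calc 4 * |(t j : ℝ)| = 4 / ε * |(t j : ℝ)| * ε := h5.symm
        _ ≤ |(t (j + 1) : ℝ)| * ε := mul_le_mul_of_nonneg_right h3 hε.le
        _ = _ := mul_comm _ _
    have h6 : 3 / 2 / |(t (j + 1) : ℝ)| / (1 - 1 / 16) = 8 / 5 / |(t (j + 1) : ℝ)| := by
      have := (hne (j + 1)).ne'
      field_simp
      norm_num
    rw [h6, div_le_div_iff₀ (hne _) (hne _)]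
    linarith
  have hinj : Function.Injective Y := by
    intro z z' hzz
    by_contra hne2
    have hex : ∃ j, z j ≠ z' j := by
      by_contra h
      push Not at h
      exact hne2 (funext h)
    classical
    set j := Nat.find hex with hj
    have hj1 : z j ≠ z' j := Nat.find_spec hex
    have hj2 : ∀ i < j, z i = z' i := fun i hi => by
      by_contra h
      exact Nat.find_min hex hi h
    have hdist : |cc t r m z j - cc t r m z' j| = 1 / |(t j : ℝ)| := by
      rcases hjj : j with _ | i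
      · simp only [cc]
        exact st_ne t r 0 m _ _ (by rw [hjj] at hj1; exact hj1) (hne' 0)
      · simp only [cc]
        have e : cc t r m z i = cc t r m z' i := cc_congr t r m z z' i fun k hk =>
          hj2 k (by omega)
        rw [e]
        exact st_ne t r (i + 1) _ _ _ (by rw [hjj] at hj1; exact hj1) (hne' _)
    have h1 := hYc z j
    have h2 := hYc z' j
    rw [← hzz] at h2
    have h3 : |cc t r m z j - cc t r m z' j| ≤ 2 / 5 * ε / |(t j : ℝ)| + 2 / 5 * ε / |(t j : ℝ)| := by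
      have : cc t r m z j - cc t r m z' j = (cc t r m z j - Y z) - (cc t r m z' j - Y z) := by ring
      rw [this]
      exact (abs_sub _ _).trans (add_le_add h1 h2)
    rw [hdist, ← add_div, div_le_div_iff_of_pos_right (hne j)] at h3
    linarith
  have hmem : ∀ z, Y z ∈ {y : ℝ | u ≤ y ∧ y ≤ v ∧ ∀ j, nm ((t j : ℝ) * y - r j) ≤ ε} := by
    intro z
    have h0 := hYc z 0
    have h1 : |cc t r m z 0 - m| ≤ 3 / 2 / |(t 0 : ℝ)| := by
      simp only [cc]
      exact st_dist t r 0 m _ (hne' 0)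
    have h2 : |Y z - m| ≤ 2 / |(t 0 : ℝ)| := by
      have e : Y z - m = (cc t r m z 0 - m) - (cc t r m z 0 - Y z) := by ring
      rw [e]
      refine (abs_sub _ _).trans ((add_le_add h1 h0).trans ?_)
      rw [← add_div]
      refine div_le_div_of_nonneg_right ?_ (hne 0).le
      linarith
    have h3 : 2 / |(t 0 : ℝ)| ≤ (v - u) / 2 := by
      rw [div_le_iff₀ (hne 0)]
      linarith
    have h4 := abs_le.1 (h2.trans h3)
    refine ⟨by linarith [h4.1], by linarith [h4.2], fun j => ?_⟩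
    have hk : ∃ k : ℤ, (t j : ℝ) * cc t r m z j - r j = k := by
      rcases j with _ | i
      · simp only [cc]
        exact st_int t r 0 _ _ (hne' 0)
      · simp only [cc]
        exact st_int t r (i + 1) _ _ (hne' _)
    obtain ⟨k, hk⟩ := hk
    refine (nm_le k).trans ?_
    have e : (t j : ℝ) * Y z - r j - k = -((t j : ℝ) * (cc t r m z j - Y z)) := by
      rw [← hk]; ring
    rw [e, abs_neg, abs_mul]
    have h5 := mul_le_mul_of_nonneg_left (hYc z j) (hne j).le
    refine h5.trans ?_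
    have h6 : |(t j : ℝ)| * (2 / 5 * ε / |(t j : ℝ)|) = 2 / 5 * ε := by
      have := (hne j).ne'
      field_simp
    rw [h6]
    linarith
  have hcard : #(ℕ → Bool) = 𝔠 := by
    simp
  rw [← hcard]
  exact Cardinal.mk_le_of_injective (f := fun z => (⟨Y z, hmem z⟩ :
    ({y : ℝ | u ≤ y ∧ y ≤ v ∧ ∀ j, nm ((t j : ℝ) * y - r j) ≤ ε} : Set ℝ)))
    (fun z z' h => hinj (congrArg Subtype.val h))

end

end Pool.Agent.W196.SQ
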